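import Pool.Agent.Helper74.FP.Goals
import Pool.Agent.Helper35.NW.ZED

set_option autoImplicit false

namespace Pool.Agent.Helper35.FPR

open Pool.Agent.Helper52.Wq2 Pool.Agent.Helper61.NW Pool.Agent.Helper74.FP
open Monoid Monoid.CoprodI
open Pool.Agent.Helper35.NW

universe u

section words

variable {ι : Type} {A B : ι → Type u} [∀ i, Group (A i)] [∀ i, Group (B i)]

/-- The letterwise map of reduced words. -/
def mp (r : ∀ i, A i → B i) (hr : ∀ i a, a ≠ 1 → r i a ≠ 1) (w : Word A) : Word B where
  toList := w.toList.map (fun p => ⟨p.1, r p.1 p.2⟩)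
  ne_one := by
    intro l hl
    obtain ⟨p, hp, rfl⟩ := List.mem_map.1 hl
    exact hr _ _ (w.ne_one p hp)
  chain_ne := by
    rw [List.isChain_map]
    exact w.chain_ne

theorem mp_fst (r : ∀ i, A i → B i) (hr : ∀ i a, a ≠ 1 → r i a ≠ 1) (w : Word A) :
    (mp r hr w).fstIdx = w.fstIdx := by
  show Option.map Sigma.fst (w.toList.map (fun p : (Σ i, A i) => (⟨p.1, r p.1 p.2⟩ : Σ i, B i))).head? =
    Option.map Sigma.fst w.toList.head?
  rw [List.head?_map, Option.map_map]
  rfl

theorem mp_inj (r : ∀ i, A i → B i) (hr : ∀ i a, a ≠ 1 → r i a ≠ 1)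
    (hi : ∀ i, Function.Injective (r i)) : Function.Injective (mp r hr) := by
  intro w w' h
  have h1 : w.toList.map (fun p : (Σ i, A i) => (⟨p.1, r p.1 p.2⟩ : Σ i, B i)) =
      w'.toList.map (fun p => ⟨p.1, r p.1 p.2⟩) := by
    have := congrArg Word.toList h
    exact this
  apply Word.ext
  refine List.map_injective_iff.2 ?_ h1
  rintro ⟨i, a⟩ ⟨j, b⟩ h2
  have h3 : i = j := congrArg Sigma.fst h2
  subst h3
  have h4 : r i a = r i b := by
    have := (Sigma.mk.injEq _ _ _ _).mp h2
    exact eq_of_heq this.2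
  rw [hi i h4]

theorem mp_rcons [∀ i, DecidableEq (A i)] [∀ i, DecidableEq (B i)]
    (r : ∀ i, A i → B i) (hr : ∀ i a, a ≠ 1 → r i a ≠ 1) (hr1 : ∀ i, r i 1 = 1) {i : ι}
    (p : Word.Pair A i) : mp r hr (Word.rcons p) =
      Word.rcons ⟨r i p.head, mp r hr p.tail, by rw [mp_fst]; exact p.fstIdx_ne⟩ := by
  by_cases h : p.head = 1
  · have h2 : r i p.head = 1 := by rw [h, hr1]
    unfold Word.rcons
    rw [dif_pos h, dif_pos h2]
  · have h2 : r i p.head ≠ 1 := hr _ _ h
    unfold Word.rcons
    rw [dif_neg h, dif_neg h2]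
    rfl

variable [DecidableEq ι] [∀ i, DecidableEq (A i)] [∀ i, DecidableEq (B i)]

theorem mp_pair (r : ∀ i, A i → B i) (hr : ∀ i a, a ≠ 1 → r i a ≠ 1) (hr1 : ∀ i, r i 1 = 1)
    (i : ι) (w : Word A) :
    (Word.equivPair i (mp r hr w)).head = r i (Word.equivPair i w).head ∧
    (Word.equivPair i (mp r hr w)).tail = mp r hr (Word.equivPair i w).tail := by
  have h1 : w = Word.rcons (Word.equivPair i w) := by
    rw [← Word.equivPair_symm, Equiv.symm_apply_apply]
  have h2 : mp r hr w = Word.rcons ⟨r i (Word.equivPair i w).head,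
      mp r hr (Word.equivPair i w).tail, by
        rw [mp_fst]; exact (Word.equivPair i w).fstIdx_ne⟩ := by
    rw [← mp_rcons r hr hr1, ← h1]
  rw [← Word.equivPair_symm] at h2
  have h3 := congrArg (Word.equivPair i) h2
  rw [Equiv.apply_symm_apply] at h3
  rw [h3]
  exact ⟨rfl, rfl⟩

theorem prod_empty_smul (t : Word B) : t.prod • (Word.empty : Word B) = t :=
  (Word.equiv (M := B)).apply_symm_apply t

theorem rd (i : ι) (b : B i) (t : Word B) (ht : t.fstIdx ≠ some i) :
    (Word.equivPair i ((of b * t.prod) • (Word.empty : Word B))).head = b ∧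
    (Word.equivPair i ((of b * t.prod) • (Word.empty : Word B))).tail = t := by
  rw [mul_smul, prod_empty_smul, Word.equivPair_smul_same, Word.equivPair_eq_of_fstIdx_ne ht]
  exact ⟨mul_one b, rfl⟩

theorem eqw (i : ι) (w w' : Word A)
    (h1 : (Word.equivPair i w).head = (Word.equivPair i w').head)
    (h2 : (Word.equivPair i w).tail = (Word.equivPair i w').tail) : w = w' :=
  (Word.equivPair i).injective (Word.Pair.ext h1 h2)

theorem tail_of_head (i : ι) (w : Word A) (h : (Word.equivPair i w).head = 1) :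
    (Word.equivPair i w).tail = w := by
  have h1 : w = Word.rcons (Word.equivPair i w) := by
    rw [← Word.equivPair_symm, Equiv.symm_apply_apply]
  conv_rhs => rw [h1]
  unfold Word.rcons
  rw [dif_pos h]

end words

theorem adj_map {ι : Type} {B : ι → Type u} [∀ i, Group (B i)] (T : ∀ i, Set (B i)) (i : ι)
    (a b : B i) (y : CoprodI B) (h : (cayL (T i)).Adj a b) :
    (cayL (US T)).Adj (of a * y) (of b * y) := by
  unfold cayL at h ⊢
  rw [SimpleGraph.fromRel_adj] at h ⊢
  obtain ⟨h1, h2⟩ := h
  have e : ∀ c d : B i, (of d * y) * (of c * y)⁻¹ = of (d * c⁻¹) := by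
    intro c d
    rw [map_mul, map_inv]; group
  refine ⟨?_, ?_⟩
  · intro he
    exact h1 (of_injective i (mul_right_cancel he))
  · rcases h2 with h2 | h2
    · left
      rw [e]
      exact ⟨i, _, h2, rfl⟩
    · right
      rw [e]
      exact ⟨i, _, h2, rfl⟩

theorem f4 : F4Stmt.{u} := by
  classical
  intro ι A B _ _ S T V hS hT hM h1
  have hne : ∀ i a, ∃ b, b ∈ V i a ∧ (a = 1 → b = 1) := by
    intro i a
    by_cases h : a = 1
    · subst h
      exact ⟨1, h1 i, fun _ => rfl⟩
    · obtain ⟨b, hb⟩ := ((hM i).1 a).1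
      exact ⟨b, hb, fun h' => absurd h' h⟩
  choose r hrV hr1' using hne
  have hr1 : ∀ i, r i 1 = 1 := fun i => hr1' i 1 rfl
  have hdisj : ∀ i a a' b, b ∈ V i a → b ∈ V i a' → a = a' := fun i a a' b => (hM i).2.1 a a' b
  have hr : ∀ i a, a ≠ 1 → r i a ≠ 1 := by
    intro i a ha h
    exact ha (hdisj i a 1 1 (by rw [← h]; exact hrV i a) (h1 i))
  have hrinj : ∀ i, Function.Injective (r i) := by
    intro i a a' h
    exact hdisj i a a' (r i a) (hrV i a) (by rw [h]; exact hrV i a')
  obtain ⟨f, hf, hfh, hft, hffst⟩ : ∃ f : Word A → Word B, Function.Injective f ∧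
      (∀ i w, (Word.equivPair i (f w)).head = r i (Word.equivPair i w).head) ∧
      (∀ i w, (Word.equivPair i (f w)).tail = f (Word.equivPair i w).tail) ∧
      ∀ w, (f w).fstIdx = w.fstIdx :=
    ⟨mp r hr, mp_inj r hr hrinj, fun i w => (mp_pair r hr hr1 i w).1,
      fun i w => (mp_pair r hr hr1 i w).2, mp_fst r hr⟩
  have hft' : ∀ i w, (f (Word.equivPair i w).tail).fstIdx ≠ some i := by
    intro i w
    rw [hffst]
    exact (Word.equivPair i w).fstIdx_ne
  have hfprod : ∀ i w, of (r i (Word.equivPair i w).head) * (f (Word.equivPair i w).tail).prod =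
      (f w).prod := by
    intro i w
    have h2 : f w = Word.rcons (Word.equivPair i (f w)) := by
      rw [← Word.equivPair_symm, Equiv.symm_apply_apply]
    conv_rhs => rw [h2]
    rw [Word.prod_rcons, hfh, hft]
  let PS : Word A → Set (CoprodI B) := fun w => {(f w).prod} ∪
    ⋃ i, (fun b => of b * (f (Word.equivPair i w).tail).prod) '' V i (Word.equivPair i w).head
  have D1 : ∀ (w w' : Word A) (i : ι) (b : B i), b ∈ V i (Word.equivPair i w').head →
      (f w).prod = of b * (f (Word.equivPair i w').tail).prod → w = w' := by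
    intro w w' i b hb he
    obtain ⟨e1, e2⟩ := rd i b _ (hft' i w')
    rw [← he, prod_empty_smul] at e1 e2
    rw [hfh] at e1
    rw [hft] at e2
    refine eqw i w w' ?_ (hf e2)
    exact hdisj i _ _ b (by rw [← e1]; exact hrV _ _) hb
  have D2 : ∀ (w : Word A) (i : ι), (1 : B i) ∈ V i (Word.equivPair i w).head →
      of (1 : B i) * (f (Word.equivPair i w).tail).prod = (f w).prod := by
    intro w i hb
    have h2 := hdisj i _ _ _ hb (h1 i)
    rw [tail_of_head i w h2, map_one, one_mul]
  have D3 : ∀ (w w' : Word A) (i i' : ι) (b : B i) (b' : B i'),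
      b ∈ V i (Word.equivPair i w).head → b' ∈ V i' (Word.equivPair i' w').head →
      of b * (f (Word.equivPair i w).tail).prod = of b' * (f (Word.equivPair i' w').tail).prod →
      w = w' := by
    intro w w' i i' b b' hb hb' he
    by_cases hii : i = i'
    · subst hii
      obtain ⟨e1, e2⟩ := rd i b _ (hft' i w)
      obtain ⟨g1, g2⟩ := rd i b' _ (hft' i w')
      rw [← he, e1] at g1
      rw [← he, e2] at g2
      subst g1
      exact eqw i w w' (hdisj i _ _ _ hb hb') (hf g2)
    · by_cases hb1 : b = 1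
      · subst hb1
        rw [D2 w i hb] at he
        exact D1 w w' i' b' hb' he
      · have hX : ((of b * (f (Word.equivPair i w).tail).prod) • (Word.empty : Word B)).fstIdx =
            some i := by
          rw [mul_smul, prod_empty_smul, ← Word.cons_eq_smul (h1 := hft' i w) (h2 := hb1)]
          exact Word.fstIdx_cons _ _ _ _
        obtain ⟨g1, g2⟩ := rd i' b' _ (hft' i' w')
        rw [← he, Word.equivPair_eq_of_fstIdx_ne (by
          rw [hX]; intro h; exact hii (Option.some.inj h))] at g1
        have g3 : b' = 1 := g1.symm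
        subst g3
        rw [D2 w' i' hb'] at he
        exact (D1 w' w i b hb he.symm).symm
  have hWinj : Function.Injective (fun g : CoprodI A => g • (Word.empty : Word A)) :=
    (Word.equiv (M := A)).injective
  refine ⟨fun g => PS (g • (Word.empty : Word A)), ?_, ?_, ?_⟩
  · intro g
    refine union_star (conn_singleton _ _) _ (fun i => ((hM i).1 _).image _ ?_) ?_
    · intro a _ b _ hab
      exact Or.inr (adj_map T i a b _ hab)
    · intro i
      exact ⟨_, rfl, _, hrV i _, hfprod i _⟩
  · rintro g g' x (hx | hx) (hx' | hx')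
    · apply hWinj
      apply hf
      apply (Word.equiv (M := B)).symm.injective
      exact (Set.mem_singleton_iff.1 hx).symm.trans (Set.mem_singleton_iff.1 hx')
    · obtain ⟨i, b, hb, he⟩ := Set.mem_iUnion.1 hx'
      apply hWinj
      exact D1 _ _ i b hb ((Set.mem_singleton_iff.1 hx).symm.trans he.symm)
    · obtain ⟨i, b, hb, he⟩ := Set.mem_iUnion.1 hx
      apply hWinj
      exact (D1 _ _ i b hb ((Set.mem_singleton_iff.1 hx').symm.trans he.symm)).symm
    · obtain ⟨i, b, hb, he⟩ := Set.mem_iUnion.1 hx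
      obtain ⟨i', b', hb', he'⟩ := Set.mem_iUnion.1 hx'
      apply hWinj
      exact D3 _ _ i i' b b' hb hb' (he.trans he'.symm)
  · have key : ∀ (g h : CoprodI A) (i : ι) (s : A i), s ∈ S i → h = of s * g →
        ∃ a ∈ PS (g • (Word.empty : Word A)), ∃ b ∈ PS (h • (Word.empty : Word A)),
          (cayL (US T)).Adj a b := by
      intro g h i s hs he
      subst he
      have hadj : (cayL (S i)).Adj (Word.equivPair i (g • (Word.empty : Word A))).head
          (s * (Word.equivPair i (g • (Word.empty : Word A))).head) := by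
        unfold cayL
        rw [SimpleGraph.fromRel_adj]
        refine ⟨?_, Or.inl ?_⟩
        · intro h2
          have : s = 1 := by
            have h3 := h2.symm
            exact mul_eq_right.1 h3
          rw [this] at hs
          exact (hS i).2.2 hs
        · rw [mul_inv_cancel_right]; exact hs
      obtain ⟨b, hb, b', hb', hbb⟩ := (hM i).2.2 _ _ hadj
      refine ⟨_, Or.inr (Set.mem_iUnion.2 ⟨i, b, hb, rfl⟩), of b' *
        (f (Word.equivPair i (g • (Word.empty : Word A))).tail).prod,
        Or.inr (Set.mem_iUnion.2 ⟨i, b', ?_, ?_⟩), adj_map T i b b' _ hbb⟩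
      · rw [mul_smul, Word.equivPair_smul_same]
        exact hb'
      · rw [mul_smul, Word.equivPair_smul_same]
    intro g h hgh
    unfold cayL at hgh
    rw [SimpleGraph.fromRel_adj] at hgh
    obtain ⟨_, ⟨i, s, hs, he⟩ | ⟨i, s, hs, he⟩⟩ := hgh
    · exact key g h i s hs (by rw [← he]; group)
    · obtain ⟨a, ha, b, hb, hab⟩ := key h g i s hs (by rw [← he]; group)
      exact ⟨b, hb, a, ha, hab.symm⟩

end Pool.Agent.Helper35.FPR
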